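import Pool.Agent.Helper72.NX.DlTotalAux
import Pool.Agent.Helper87.NX.DlA
import Pool.Agent.Helper88.NX.DlB

/-!
# Project NX, module NX-13: degree lowering down to a block phase
-/

set_option autoImplicit false

open Finset
open scoped BigOperators ComplexConjugate

namespace Pool.Agent.Helper57.NX

noncomputable section

theorem dl_total (r : ℕ) (Γ : ℕ → ℕ) (n : ℕ) : ∃ n4 : ℕ,
    ∀ (N : ℕ) [NeZero N] (ι : Type) (Ω : Finset ι) (F : ι → ZMod N → ℂ) (κ u : ZMod N → ℂ)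
      (δ Y : ℝ) (X : ℕ), DLData Ω F κ u → 0 < δ → δ ≤ 1 / 2 → Adm (δ⁻¹ ^ n) Y u →
      1 ≤ Y → Y ≤ δ ^ n4 * X → (X : ℝ) ≤ δ ^ n4 * N → δ ^ n ≤ Box r X u →
      (∀ k ≤ r, ∀ n2 ≤ n4, ∀ X2 X' : ℕ, δ ^ n4 * X ≤ X2 → X2 ≤ X → 1 ≤ X' → X' ≤ X2 →
        LPh Ω F k X' X2 (δ⁻¹ ^ n2 / Y) (δ⁻¹ ^ (Γ n2) / X2) (δ ^ n2)) →
      ∃ X2 : ℕ, δ ^ n4 * X ≤ X2 ∧ X2 ≤ X ∧ ∃ (r' : ZMod N) (cc : ℕ → ℂ) (φ : ℕ → ℝ),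
        (∀ j, ‖cc j‖ ≤ 1) ∧ (∀ j, |φ j| ≤ δ⁻¹ ^ n4 / Y) ∧
        δ ^ n4 ≤ ‖𝔼 x, u x * bphase X2 r' cc φ x‖ :=
  h72_dl_total (fun k hk => h72_low_of k (dl_A k hk) (dl_B k hk)) r Γ n

end

end Pool.Agent.Helper57.NX
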