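import Pool.Agent.Helper57.NX.Defs2
import Pool.Agent.Helper5.NX.Basic
import Pool.Agent.Helper88.NX.BoxNorm
import Pool.Agent.Helper41.NX.U2Block

/-!
# Project NX, module NX-13 (part 1): a large second box norm gives a block phase
-/

set_option autoImplicit false

open Finset
open scoped BigOperators ComplexConjugate

namespace Pool.Agent.Helper57.NX

noncomputable section

theorem h72_sum_zmod {N : ℕ} [NeZero N] (r : ZMod N) (f : ZMod N → ℂ) :
    ∑ x, f x = ∑ v ∈ range N, f (r + (v : ZMod N)) := by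
  have h1 : ∑ x, f x = ∑ x, f (r + x) :=
    (Equiv.sum_comp (Equiv.addLeft r) f).symm
  rw [h1]
  symm
  refine Finset.sum_nbij' (fun v => (v : ZMod N)) (fun x => x.val) ?_ ?_ ?_ ?_ ?_
  · intro v _; exact mem_univ _
  · intro x _; exact mem_range.mpr (ZMod.val_lt x)
  · intro v hv; exact ZMod.val_natCast_of_lt (mem_range.mp hv)
  · intro x _; exact ZMod.natCast_zmod_val x
  · intro v _; rfl

theorem h72_sum_blocks (K X : ℕ) (f : ℕ → ℂ) :
    ∑ v ∈ range (K * X), f v = ∑ j ∈ range K, ∑ t ∈ range X, f (j * X + t) := by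
  induction K with
  | zero => simp
  | succ K ih => rw [Nat.succ_mul, Finset.sum_range_add, ih, Finset.sum_range_succ]

/-- the sum of a function supported on the full blocks -/
theorem h72_expect_blocks {N : ℕ} [NeZero N] (r : ZMod N) (X : ℕ) (f : ZMod N → ℂ)
    (h0 : ∀ v, (N / X) * X ≤ v → v < N → f (r + (v : ZMod N)) = 0) :
    𝔼 x, f x = (1 / N : ℂ) * ∑ j ∈ range (N / X), ∑ t ∈ range X,
      f (r + ((j * X + t : ℕ) : ZMod N)) := by
  rw [expect_eq_sum_div_card, h72_sum_zmod r f, card_univ, ZMod.card]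
  have h1 : ∑ v ∈ range N, f (r + (v : ZMod N)) =
      ∑ v ∈ range ((N / X) * X), f (r + (v : ZMod N)) := by
    symm
    refine Finset.sum_subset ?_ ?_
    · intro v hv
      rw [mem_range] at hv ⊢
      exact lt_of_lt_of_le hv (Nat.div_mul_le_self N X)
    · intro v hv hv'
      rw [mem_range] at hv hv'
      exact h0 v (not_lt.mp hv') hv
  rw [h1, h72_sum_blocks (N / X) X (fun v => f (r + (v : ZMod N)))]
  rw [div_eq_mul_inv, mul_comm, one_div]

theorem h72_box_two {N : ℕ} [NeZero N] (X : ℕ) (u : ZMod N → ℂ) : Box 2 X u = U2 X u := by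
  have h := Box_add_two 0 X u
  rw [Nat.zero_add] at h
  rw [h]
  have hb : boxset 0 X = {fun i => i.elim0} := by
    ext a
    simp only [boxset, Fintype.mem_piFinset, mem_singleton]
    constructor
    · intro _; ext i; exact i.elim0
    · intro _ i; exact i.elim0
  rw [hb]
  simp only [expect_singleton]
  congr 1
  funext x
  unfold cube
  rw [Fintype.prod_unique]
  unfold cjj
  rw [if_pos (by simp)]
  unfold tot
  simp

/-- a unimodular factor -/
theorem h72_unimod (z : ℂ) : ∃ w : ℂ, ‖w‖ ≤ 1 ∧ w * z = (‖z‖ : ℂ) := by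
  by_cases hz : z = 0
  · exact ⟨0, by simp, by simp [hz]⟩
  · refine ⟨conj z / ‖z‖, ?_, ?_⟩
    · rw [norm_div, Complex.norm_conj]
      simp [hz]
    · rw [div_mul_eq_mul_div, mul_comm (conj z) z, Complex.mul_conj]
      rw [Complex.normSq_eq_norm_sq]
      have : (‖z‖ : ℂ) ≠ 0 := by
        exact_mod_cast (norm_ne_zero_iff.mpr hz)
      push_cast
      field_simp

theorem h72_base (n : ℕ) {N : ℕ} [NeZero N] (u : ZMod N → ℂ) (δ Y : ℝ) (X : ℕ) (hδ0 : 0 < δ)
    (hδ1 : δ ≤ 1 / 2) (hu : Adm (δ⁻¹ ^ n) Y u) (hY : 1 ≤ Y) (hYX : Y ≤ X)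
    (hXN : (X : ℝ) ≤ δ ^ (n + 3) * N) (hB : δ ^ n ≤ Box 2 X u) :
    ∃ (r' : ZMod N) (cc : ℕ → ℂ) (φ : ℕ → ℝ),
      (∀ j, ‖cc j‖ ≤ 1) ∧ (∀ j, |φ j| ≤ δ⁻¹ ^ (2 * n + 4) / Y) ∧
      δ ^ (n + 4) ≤ ‖𝔼 x, u x * bphase X r' cc φ x‖ := by
  have hX1R : (1 : ℝ) ≤ X := le_trans hY hYX
  have hX1 : 1 ≤ X := by exact_mod_cast hX1R
  have hX0 : (0 : ℝ) < X := by linarith
  have hN0 : (0 : ℝ) < N := by
    have : N ≠ 0 := NeZero.ne N
    exact_mod_cast Nat.pos_of_ne_zero this
  have hδle1 : δ ≤ 1 := by linarith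
  have hδinv : 2 ≤ δ⁻¹ := by
    rw [le_inv_comm₀ (by norm_num) hδ0]
    linarith
  have hpn : 0 < δ ^ n := pow_pos hδ0 n
  have hpn1 : δ ^ n ≤ 1 := pow_le_one₀ hδ0.le hδle1
  have h3 : δ ^ 3 ≤ 1 / 8 := by
    have := pow_le_pow_left₀ hδ0.le hδ1 3
    norm_num at this ⊢
    linarith
  have hXN4 : (X : ℝ) ≤ δ ^ n / 8 * N := by
    refine le_trans hXN ?_
    rw [pow_add]
    have : δ ^ n * δ ^ 3 ≤ δ ^ n / 8 := by nlinarith
    exact mul_le_mul_of_nonneg_right this hN0.le
  have hXN8 : (X : ℝ) ≤ N / 8 := by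
    refine le_trans hXN4 ?_
    have : δ ^ n / 8 * N ≤ 1 / 8 * N := mul_le_mul_of_nonneg_right (by linarith) hN0.le
    linarith
  have hXNn : X ≤ N := by
    have : (X : ℝ) ≤ N := by linarith
    exact_mod_cast this
  obtain ⟨r, θ, hθ, hU⟩ := u2_block (N := N) (κ := Unit) {()} (singleton_nonempty _)
    (fun _ => u) (fun _ x => hu.bdd x) X hX1 hXNn
  rw [expect_singleton, expect_singleton, ← h72_box_two] at hU
  set S : ℕ → ℂ := fun j => 𝔼 t ∈ range X,
    u (r + ((j * X + t : ℕ) : ZMod N)) * e (-(θ () j * t)) with hS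
  set K : ℕ := N / X with hK
  have hKX : (N : ℝ) / 2 ≤ K * X := by
    have h1 : N < (N / X + 1) * X := by
      have := Nat.lt_div_mul_add (a := N) (b := X) (by omega)
      rw [Nat.add_mul, Nat.one_mul]
      exact this
    have h2 : (N : ℝ) < (K + 1) * X := by exact_mod_cast h1
    nlinarith
  have hK0 : (0 : ℝ) < K := by
    by_contra hcon
    have : (K : ℝ) ≤ 0 := not_lt.mp hcon
    nlinarith
  have hKX2 : (K : ℝ) * X ≤ N := by exact_mod_cast Nat.div_mul_le_self N X
  set E : ℝ := 𝔼 j ∈ range K, ‖S j‖ with hE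
  have hElow : 3 * δ ^ n / 8 ≤ E := by
    have h1 : δ ^ n ≤ 2 * E + 2 * X / N := le_trans hB hU
    have h2 : 2 * (X : ℝ) / N ≤ δ ^ n / 4 := by
      rw [div_le_iff₀ hN0]
      linarith
    linarith
  set τ : ℝ := δ ^ n / 8 with hτ
  have hτ0 : 0 < τ := by positivity
  choose w hw1 hw2 using fun j => h72_unimod (S j)
  classical
  set cc : ℕ → ℂ := fun j => if j < K ∧ τ ≤ ‖S j‖ then w j * e (θ () j * (j * X : ℕ)) else 0
    with hcc
  set φ : ℕ → ℝ := fun j => if j < K ∧ τ ≤ ‖S j‖ then -(θ () j) else 0 with hφ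
  refine ⟨r, cc, φ, ?_, ?_, ?_⟩
  · intro j
    simp only [hcc]
    split_ifs with h
    · rw [norm_mul, norm_e, mul_one]; exact hw1 j
    · simp
  · intro j
    simp only [hφ]
    split_ifs with h
    · rw [abs_neg]
      by_cases hz : θ () j = 0
      · rw [hz, abs_zero]
        positivity
      · have hpos : 0 < |θ () j| := abs_pos.mpr hz
        have hf := freq_bound (fun x => hu.bdd x) (r + ((j * X : ℕ) : ZMod N)) X hX1 (θ () j)
          hpos (hθ () j)
        have hSj : S j = 𝔼 t ∈ range X,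
            u (r + ((j * X : ℕ) : ZMod N) + (t : ZMod N)) * e (-(θ () j * t)) := by
          simp only [hS]
          refine expect_congr rfl fun t _ => ?_
          congr 2
          push_cast
          ring
        rw [← hSj] at hf
        have htv := hu.tv (r + ((j * X : ℕ) : ZMod N)) X
        have hB1 : 1 ≤ δ⁻¹ ^ n := one_le_pow₀ (by linarith)
        have hY0 : 0 < Y := by linarith
        have h4 : τ ≤ (2 + δ⁻¹ ^ n * (X / Y + 1)) / (4 * |θ () j| * X) := by
          refine le_trans h.2 (le_trans hf ?_)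
          refine div_le_div_of_nonneg_right ?_ (by positivity)
          linarith
        rw [le_div_iff₀ (by positivity)] at h4
        -- multiply out
        have h5 : |θ () j| * (4 * τ * X) ≤ 4 * δ⁻¹ ^ n * (X / Y) := by
          have hXY : 1 ≤ (X : ℝ) / Y := by rw [le_div_iff₀ hY0]; linarith
          have : 2 + δ⁻¹ ^ n * (X / Y + 1) ≤ 4 * δ⁻¹ ^ n * (X / Y) := by
            have e1 : (2 : ℝ) ≤ 2 * (δ⁻¹ ^ n * (X / Y)) := by nlinarith
            have e2 : δ⁻¹ ^ n * (X / Y + 1) ≤ 2 * (δ⁻¹ ^ n * (X / Y)) := by nlinarith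
            linarith
          nlinarith
        have h6 : |θ () j| ≤ δ⁻¹ ^ n / (τ * Y) := by
          rw [le_div_iff₀ (by positivity)]
          have h7 : |θ () j| * (4 * τ * X) * (Y / (4 * X)) ≤
              4 * δ⁻¹ ^ n * (X / Y) * (Y / (4 * X)) :=
            mul_le_mul_of_nonneg_right h5 (by positivity)
          have h8 : |θ () j| * (4 * τ * X) * (Y / (4 * X)) = |θ () j| * (τ * Y) := by
            field_simp
          have h9 : 4 * δ⁻¹ ^ n * (X / Y) * (Y / (4 * X)) = δ⁻¹ ^ n := by
            field_simp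
          rw [h8, h9] at h7
          exact h7
        refine le_trans h6 ?_
        have h10 : δ⁻¹ ^ n / (τ * Y) = (8 * δ⁻¹ ^ (2 * n)) / Y := by
          rw [hτ, two_mul, pow_add, inv_pow]
          field_simp
        rw [h10]
        refine div_le_div_of_nonneg_right ?_ hY0.le
        have h11 : (8 : ℝ) ≤ δ⁻¹ ^ 4 := by
          have := pow_le_pow_left₀ (by norm_num) hδinv 4
          norm_num at this ⊢
          linarith
        rw [pow_add]
        have : 0 < δ⁻¹ ^ (2 * n) := by positivity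
        nlinarith
    · rw [abs_zero]
      have : 0 < Y := by linarith
      positivity
  · -- the lower bound
    have hval : ∀ v, v < N → ((r + (v : ZMod N)) - r).val = v := by
      intro v hv
      rw [add_sub_cancel_left]
      exact ZMod.val_natCast_of_lt hv
    have hzero : ∀ v, K * X ≤ v → v < N →
        u (r + (v : ZMod N)) * bphase X r cc φ (r + (v : ZMod N)) = 0 := by
      intro v hv1 hv2
      unfold bphase
      rw [hval v hv2]
      have : ¬ (v / X < K ∧ τ ≤ ‖S (v / X)‖) := by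
        rintro ⟨h, _⟩
        have := (Nat.le_div_iff_mul_le (by omega : 0 < X)).mpr hv1
        omega
      simp only [hcc]
      rw [if_neg this]
      simp
    rw [h72_expect_blocks r X (fun x => u x * bphase X r cc φ x) hzero]
    have hblk : ∀ j ∈ range K, ∑ t ∈ range X, u (r + ((j * X + t : ℕ) : ZMod N)) *
        bphase X r cc φ (r + ((j * X + t : ℕ) : ZMod N)) =
        ((if τ ≤ ‖S j‖ then X * ‖S j‖ else 0 : ℝ) : ℂ) := by
      intro j hj
      rw [mem_range] at hj
      have hlt : ∀ t ∈ range X, j * X + t < N := by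
        intro t ht
        rw [mem_range] at ht
        calc j * X + t < j * X + X := by omega
          _ = (j + 1) * X := by ring
          _ ≤ K * X := Nat.mul_le_mul_right X (by omega)
          _ ≤ N := Nat.div_mul_le_self N X
      have hdiv : ∀ t ∈ range X, (j * X + t) / X = j := by
        intro t ht
        rw [mem_range] at ht
        rw [mul_comm, Nat.mul_add_div (by omega), Nat.div_eq_of_lt ht, Nat.add_zero]
      by_cases hg : τ ≤ ‖S j‖
      · rw [if_pos hg]
        have hterm : ∀ t ∈ range X, u (r + ((j * X + t : ℕ) : ZMod N)) *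
            bphase X r cc φ (r + ((j * X + t : ℕ) : ZMod N)) =
            w j * (u (r + ((j * X + t : ℕ) : ZMod N)) * e (-(θ () j * t))) := by
          intro t ht
          unfold bphase
          rw [hval _ (hlt t ht), hdiv t ht]
          simp only [hcc, hφ]
          rw [if_pos ⟨hj, hg⟩, if_pos ⟨hj, hg⟩]
          have : e (θ () j * (j * X : ℕ)) * e (-(θ () j) * ((j * X + t : ℕ) : ℝ)) =
              e (-(θ () j * t)) := by
            rw [← e_add]
            congr 1
            push_cast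
            ring
          calc _ = w j * (u (r + ((j * X + t : ℕ) : ZMod N)) *
              (e (θ () j * (j * X : ℕ)) * e (-(θ () j) * ((j * X + t : ℕ) : ℝ)))) := by ring
            _ = _ := by rw [this]
        rw [sum_congr rfl hterm, ← mul_sum]
        have hSsum : ∑ t ∈ range X, u (r + ((j * X + t : ℕ) : ZMod N)) * e (-(θ () j * t)) =
            (X : ℂ) * S j := by
          simp only [hS]
          rw [expect_eq_sum_div_card, card_range]
          have : (X : ℂ) ≠ 0 := by exact_mod_cast (by omega : X ≠ 0)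
          field_simp
        rw [hSsum]
        calc w j * ((X : ℂ) * S j) = X * (w j * S j) := by ring
          _ = X * (‖S j‖ : ℂ) := by rw [hw2 j]
          _ = _ := by push_cast; ring
      · rw [if_neg hg]
        rw [Complex.ofReal_zero]
        refine sum_eq_zero fun t ht => ?_
        unfold bphase
        rw [hval _ (hlt t ht), hdiv t ht]
        simp only [hcc]
        rw [if_neg (fun h => hg h.2)]
        simp
    rw [sum_congr rfl hblk, ← Complex.ofReal_sum]
    have hnorm : ‖(1 / (N : ℂ)) * ((∑ j ∈ range K, (if τ ≤ ‖S j‖ then X * ‖S j‖ else 0) : ℝ) : ℂ)‖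
        = (1 / N) * ∑ j ∈ range K, (if τ ≤ ‖S j‖ then X * ‖S j‖ else 0) := by
      rw [norm_mul, norm_div, norm_one, Complex.norm_natCast, Complex.norm_real, Real.norm_eq_abs,
        abs_of_nonneg]
      refine sum_nonneg fun j _ => ?_
      split_ifs
      · positivity
      · exact le_rfl
    rw [hnorm]
    have hsum : (X : ℝ) * (K * E - K * τ) ≤
        ∑ j ∈ range K, (if τ ≤ ‖S j‖ then X * ‖S j‖ else 0) := by
      have h1 : (K : ℝ) * E = ∑ j ∈ range K, ‖S j‖ := by
        rw [hE, expect_eq_sum_div_card, card_range]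
        field_simp
      have h2 : (K : ℝ) * τ = ∑ j ∈ range K, τ := by
        rw [sum_const, card_range, nsmul_eq_mul]
      rw [h1, h2, ← sum_sub_distrib, mul_sum]
      refine sum_le_sum fun j _ => ?_
      split_ifs with h
      · nlinarith
      · nlinarith [not_le.mp h]
    have h16 : δ ^ (n + 4) ≤ δ ^ n / 16 := by
      rw [pow_add]
      have : δ ^ 4 ≤ 1 / 16 := by
        have := pow_le_pow_left₀ hδ0.le hδ1 4
        norm_num at this ⊢
        linarith
      nlinarith
    calc δ ^ (n + 4) ≤ δ ^ n / 16 := h16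
      _ ≤ (1 / N) * (X * (K * E - K * τ)) := by
        rw [one_div, ← div_eq_inv_mul, le_div_iff₀ hN0]
        have h1 : δ ^ n / 4 ≤ E - τ := by rw [hτ]; linarith
        have h2 : (N : ℝ) / 2 * (δ ^ n / 4) ≤ (K * X) * (E - τ) :=
          mul_le_mul hKX h1 (by positivity) (by positivity)
        nlinarith
      _ ≤ _ := mul_le_mul_of_nonneg_left hsum (by positivity)

end

end Pool.Agent.Helper57.NX
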