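import Pool.Agent.Helper72.NX.DlBase

/-!
# Project NX, module NX-13 (part 2): iteration of the degree lowering
-/

set_option autoImplicit false

open Finset
open scoped BigOperators ComplexConjugate

namespace Pool.Agent.Helper57.NX

noncomputable section

/-- one complete degree lowering step -/
def H72Low (k : ℕ) : Prop := ∀ (Γ : ℕ → ℕ) (n : ℕ), ∃ n2 n3 : ℕ,
    ∀ (N : ℕ) [NeZero N] (ι : Type) (Ω : Finset ι) (F : ι → ZMod N → ℂ) (κ u : ZMod N → ℂ)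
      (δ Y : ℝ) (X X' : ℕ), DLData Ω F κ u → 0 < δ → δ ≤ 1 / 2 → Adm (δ⁻¹ ^ n) Y u →
      1 ≤ Y → Y ≤ X → (X : ℝ) ≤ δ ^ n3 * N → δ ^ n ≤ Box (k + 2) X u →
      1 ≤ X' → (X' : ℝ) ≤ δ ^ n3 * X →
      LPh Ω F k X' X (δ⁻¹ ^ n2 / Y) (δ⁻¹ ^ (Γ n2) / X) (δ ^ n2) →
      δ ^ n3 ≤ Box (k + 1) X' u

theorem h72_pow_anti {δ : ℝ} (h0 : 0 < δ) (h1 : δ ≤ 1 / 2) {a b : ℕ} (hab : a ≤ b) :
    δ ^ b ≤ δ ^ a := pow_le_pow_of_le_one h0.le (by linarith) hab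

theorem h72_ipow_mono {δ : ℝ} (h0 : 0 < δ) (h1 : δ ≤ 1 / 2) {a b : ℕ} (hab : a ≤ b) :
    δ⁻¹ ^ a ≤ δ⁻¹ ^ b := by
  refine pow_le_pow_right₀ ?_ hab
  rw [le_inv_comm₀ (by norm_num) h0]
  linarith

theorem h72_total (hL : ∀ k, 1 ≤ k → H72Low k) (Γ : ℕ → ℕ) (r : ℕ) : ∀ n : ℕ, ∃ n4 : ℕ,
    ∀ (N : ℕ) [NeZero N] (ι : Type) (Ω : Finset ι) (F : ι → ZMod N → ℂ) (κ u : ZMod N → ℂ)
      (δ Y : ℝ) (X : ℕ), DLData Ω F κ u → 0 < δ → δ ≤ 1 / 2 → Adm (δ⁻¹ ^ n) Y u →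
      1 ≤ Y → Y ≤ δ ^ n4 * X → (X : ℝ) ≤ δ ^ n4 * N → δ ^ n ≤ Box (r + 2) X u →
      (∀ k ≤ r, ∀ n2 ≤ n4, ∀ X2 X' : ℕ, δ ^ n4 * X ≤ X2 → X2 ≤ X → 1 ≤ X' → X' ≤ X2 →
        LPh Ω F k X' X2 (δ⁻¹ ^ n2 / Y) (δ⁻¹ ^ (Γ n2) / X2) (δ ^ n2)) →
      ∃ X2 : ℕ, δ ^ n4 * X ≤ X2 ∧ X2 ≤ X ∧ ∃ (r' : ZMod N) (cc : ℕ → ℂ) (φ : ℕ → ℝ),
        (∀ j, ‖cc j‖ ≤ 1) ∧ (∀ j, |φ j| ≤ δ⁻¹ ^ n4 / Y) ∧
        δ ^ n4 ≤ ‖𝔼 x, u x * bphase X2 r' cc φ x‖ := by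
  induction r with
  | zero =>
    intro n
    refine ⟨2 * n + 4, ?_⟩
    intro N _ ι Ω F κ u δ Y X _ hδ0 hδ1 hu hY hYX hXN hB _
    have hX0 : (0 : ℝ) ≤ X := Nat.cast_nonneg X
    have hN0 : (0 : ℝ) ≤ N := Nat.cast_nonneg N
    have hle1 : ∀ a : ℕ, δ ^ a ≤ 1 := fun a => pow_le_one₀ hδ0.le (by linarith)
    have hYX' : Y ≤ X := le_trans hYX (by nlinarith [hle1 (2 * n + 4)])
    obtain ⟨r', cc, φ, h1, h2, h3⟩ := h72_base n u δ Y X hδ0 hδ1 hu hY hYX'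
      (le_trans hXN (mul_le_mul_of_nonneg_right (h72_pow_anti hδ0 hδ1 (by omega)) hN0)) hB
    refine ⟨X, by nlinarith [hle1 (2 * n + 4)], le_rfl, r', cc, φ, h1, h2, ?_⟩
    exact le_trans (h72_pow_anti hδ0 hδ1 (by omega)) h3
  | succ r ih =>
    intro n
    obtain ⟨n2, n3, hlow⟩ := hL (r + 1) (by omega) Γ n
    obtain ⟨n4, hn4⟩ := ih (max n n3)
    refine ⟨n4 + n3 + 1 + n2, ?_⟩
    intro N _ ι Ω F κ u δ Y X hD hδ0 hδ1 hu hY hYX hXN hB hLP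
    have hX0 : (0 : ℝ) ≤ X := Nat.cast_nonneg X
    have hN0 : (0 : ℝ) ≤ N := Nat.cast_nonneg N
    have hle1 : ∀ a : ℕ, δ ^ a ≤ 1 := fun a => pow_le_one₀ hδ0.le (by linarith)
    have hpos : ∀ a : ℕ, 0 < δ ^ a := fun a => pow_pos hδ0 a
    have hY0 : 0 < Y := by linarith
    have hYX' : Y ≤ X := le_trans hYX (by nlinarith [hle1 (n4 + n3 + 1 + n2)])
    -- the new length
    have h1 : 1 ≤ δ ^ n3 * X := by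
      refine le_trans hY (le_trans hYX ?_)
      exact mul_le_mul_of_nonneg_right (h72_pow_anti hδ0 hδ1 (by omega)) hX0
    set X' : ℕ := ⌊δ ^ n3 * X⌋₊ with hX'
    have hX'1 : 1 ≤ X' := Nat.one_le_floor_iff _ |>.mpr h1
    have hX'le : (X' : ℝ) ≤ δ ^ n3 * X := Nat.floor_le (by positivity)
    have hX'ge : δ ^ (n3 + 1) * X ≤ X' := by
      have h2 : δ ^ n3 * X < X' + 1 := Nat.lt_floor_add_one _
      have h3 : (1 : ℝ) ≤ X' := by exact_mod_cast hX'1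
      have h4 : δ ^ (n3 + 1) * X ≤ (δ ^ n3 * X) / 2 := by
        rw [pow_succ]
        have : δ ^ n3 * δ * X = (δ ^ n3 * X) * δ := by ring
        rw [this]
        nlinarith
      linarith
    have hX'X : X' ≤ X := by
      have : (X' : ℝ) ≤ X := le_trans hX'le (by nlinarith [hle1 n3])
      exact_mod_cast this
    have hXN3 : (X : ℝ) ≤ δ ^ n3 * N :=
      le_trans hXN (mul_le_mul_of_nonneg_right (h72_pow_anti hδ0 hδ1 (by omega)) hN0)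
    have hbox : δ ^ n3 ≤ Box (r + 2) X' u := by
      refine hlow N ι Ω F κ u δ Y X X' hD hδ0 hδ1 hu hY hYX' hXN3 hB hX'1 hX'le ?_
      refine hLP (r + 1) le_rfl n2 (by omega) X X' ?_ le_rfl hX'1 hX'X
      nlinarith [hle1 (n4 + n3 + 1 + n2)]
    -- the inductive hypothesis at the scale `X'`
    have hu' : Adm (δ⁻¹ ^ max n n3) Y u :=
      hu.mono (h72_ipow_mono hδ0 hδ1 (le_max_left _ _)) hY0 le_rfl
    have hbox' : δ ^ max n n3 ≤ Box (r + 2) X' u :=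
      le_trans (h72_pow_anti hδ0 hδ1 (le_max_right _ _)) hbox
    have hX'4 : δ ^ (n4 + n3 + 1 + n2) * X ≤ δ ^ n4 * X' := by
      have e1 : δ ^ (n4 + n3 + 1 + n2) * X ≤ δ ^ (n4 + (n3 + 1)) * X :=
        mul_le_mul_of_nonneg_right (h72_pow_anti hδ0 hδ1 (by omega)) hX0
      refine le_trans e1 ?_
      rw [pow_add, mul_assoc]
      exact mul_le_mul_of_nonneg_left hX'ge (hpos n4).le
    have hYX'' : Y ≤ δ ^ n4 * X' := le_trans hYX hX'4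
    have hX'N : (X' : ℝ) ≤ δ ^ n4 * N := by
      refine le_trans (by exact_mod_cast hX'X : (X' : ℝ) ≤ X) (le_trans hXN ?_)
      exact mul_le_mul_of_nonneg_right (h72_pow_anti hδ0 hδ1 (by omega)) hN0
    obtain ⟨X2, hX2a, hX2b, r', cc, φ, hc1, hc2, hc3⟩ := hn4 N ι Ω F κ u δ Y X' hD hδ0 hδ1 hu' hY
      hYX'' hX'N hbox' (by
        intro k hk m2 hm2 X2 X3 hX2 hX2' hX3 hX3'
        exact hLP k (by omega) m2 (by omega) X2 X3 (le_trans hX'4 hX2) (le_trans hX2' hX'X)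
          hX3 hX3')
    refine ⟨X2, le_trans hX'4 hX2a, le_trans hX2b hX'X, r', cc, φ, hc1, ?_, ?_⟩
    · intro j
      refine le_trans (hc2 j) (div_le_div_of_nonneg_right ?_ hY0.le)
      exact h72_ipow_mono hδ0 hδ1 (by omega)
    · exact le_trans (h72_pow_anti hδ0 hδ1 (by omega)) hc3

/-- `dl_total` from the two halves of the degree lowering step -/
theorem h72_dl_total (hL : ∀ k, 1 ≤ k → H72Low k) (r : ℕ) (Γ : ℕ → ℕ) (n : ℕ) : ∃ n4 : ℕ,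
    ∀ (N : ℕ) [NeZero N] (ι : Type) (Ω : Finset ι) (F : ι → ZMod N → ℂ) (κ u : ZMod N → ℂ)
      (δ Y : ℝ) (X : ℕ), DLData Ω F κ u → 0 < δ → δ ≤ 1 / 2 → Adm (δ⁻¹ ^ n) Y u →
      1 ≤ Y → Y ≤ δ ^ n4 * X → (X : ℝ) ≤ δ ^ n4 * N → δ ^ n ≤ Box r X u →
      (∀ k ≤ r, ∀ n2 ≤ n4, ∀ X2 X' : ℕ, δ ^ n4 * X ≤ X2 → X2 ≤ X → 1 ≤ X' → X' ≤ X2 →
        LPh Ω F k X' X2 (δ⁻¹ ^ n2 / Y) (δ⁻¹ ^ (Γ n2) / X2) (δ ^ n2)) →
      ∃ X2 : ℕ, δ ^ n4 * X ≤ X2 ∧ X2 ≤ X ∧ ∃ (r' : ZMod N) (cc : ℕ → ℂ) (φ : ℕ → ℝ),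
        (∀ j, ‖cc j‖ ≤ 1) ∧ (∀ j, |φ j| ≤ δ⁻¹ ^ n4 / Y) ∧
        δ ^ n4 ≤ ‖𝔼 x, u x * bphase X2 r' cc φ x‖ := by
  -- general reduction from order `r` to order `s + 2`
  have key : ∀ s, s ≤ r → (∀ (N : ℕ) [NeZero N] (u : ZMod N → ℂ) (X : ℕ) (δ : ℝ),
      (∀ x, ‖u x‖ ≤ 1) → 1 ≤ X → 0 < δ → δ ≤ 1 / 2 → δ ^ n ≤ Box r X u →
      δ ^ (4 * n) ≤ Box (s + 2) X u) → ∃ n4 : ℕ,
    ∀ (N : ℕ) [NeZero N] (ι : Type) (Ω : Finset ι) (F : ι → ZMod N → ℂ) (κ u : ZMod N → ℂ)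
      (δ Y : ℝ) (X : ℕ), DLData Ω F κ u → 0 < δ → δ ≤ 1 / 2 → Adm (δ⁻¹ ^ n) Y u →
      1 ≤ Y → Y ≤ δ ^ n4 * X → (X : ℝ) ≤ δ ^ n4 * N → δ ^ n ≤ Box r X u →
      (∀ k ≤ r, ∀ n2 ≤ n4, ∀ X2 X' : ℕ, δ ^ n4 * X ≤ X2 → X2 ≤ X → 1 ≤ X' → X' ≤ X2 →
        LPh Ω F k X' X2 (δ⁻¹ ^ n2 / Y) (δ⁻¹ ^ (Γ n2) / X2) (δ ^ n2)) →
      ∃ X2 : ℕ, δ ^ n4 * X ≤ X2 ∧ X2 ≤ X ∧ ∃ (r' : ZMod N) (cc : ℕ → ℂ) (φ : ℕ → ℝ),
        (∀ j, ‖cc j‖ ≤ 1) ∧ (∀ j, |φ j| ≤ δ⁻¹ ^ n4 / Y) ∧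
        δ ^ n4 ≤ ‖𝔼 x, u x * bphase X2 r' cc φ x‖ := by
    intro s hs hbox
    obtain ⟨n4, h⟩ := h72_total hL Γ s (4 * n)
    refine ⟨n4, ?_⟩
    intro N _ ι Ω F κ u δ Y X hD hδ0 hδ1 hu hY hYX hXN hB hLP
    have hX1 : 1 ≤ X := by
      by_contra hcon
      have : X = 0 := by omega
      rw [this] at hYX
      simp at hYX
      linarith
    refine h N ι Ω F κ u δ Y X hD hδ0 hδ1
      (hu.mono (h72_ipow_mono hδ0 hδ1 (by omega)) (by linarith) le_rfl) hY hYX hXN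
      (hbox N u X δ hu.bdd hX1 hδ0 hδ1 hB) ?_
    intro k hk
    exact hLP k (le_trans hk hs)
  by_cases hr : 2 ≤ r
  · refine key (r - 2) (by omega) ?_
    intro N _ u X δ _ _ hδ0 hδ1 hB
    have : r - 2 + 2 = r := by omega
    rw [this]
    exact le_trans (h72_pow_anti hδ0 hδ1 (by omega)) hB
  · refine key 0 (by omega) ?_
    intro N _ u X δ hu hX hδ0 hδ1 hB
    have h2 : δ ^ (2 * n) ≤ Box 1 X u := by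
      interval_cases r
      · refine le_trans ?_ (Box_succ_ge 0 X hX hu)
        rw [mul_comm, pow_mul]
        exact pow_le_pow_left₀ (pow_pos hδ0 n).le hB 2
      · exact le_trans (h72_pow_anti hδ0 hδ1 (by omega)) hB
    refine le_trans ?_ (Box_succ_ge 1 X hX hu)
    rw [show 4 * n = 2 * n * 2 by ring, pow_mul]
    exact pow_le_pow_left₀ (pow_pos hδ0 _).le h2 2

/-- the statement of `dl_A` for a fixed `k` -/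
def H72A (k : ℕ) : Prop := ∀ n : ℕ, ∃ n2 : ℕ, ∀ n1 : ℕ, ∃ n3 : ℕ,
    ∀ (N : ℕ) [NeZero N] (ι : Type) (Ω : Finset ι) (F : ι → ZMod N → ℂ) (κ u : ZMod N → ℂ)
      (δ Y : ℝ) (X X' : ℕ), DLData Ω F κ u → 0 < δ → δ ≤ 1 / 2 → Adm (δ⁻¹ ^ n) Y u →
      1 ≤ Y → Y ≤ X → (X : ℝ) ≤ δ ^ n3 * N → δ ^ n ≤ Box (k + 2) X u →
      1 ≤ X' → (X' : ℝ) ≤ δ ^ n3 * X →
      LPh Ω F k X' X (δ⁻¹ ^ n2 / Y) (δ⁻¹ ^ n1 / X) (δ ^ n2) →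
      ∃ (r : ZMod N) (θ : (Fin k → ℕ) → (Fin k → ℕ) → ℕ → ℝ) (a' : ℕ → Fin k → ℕ),
        (∀ j, a' j ∈ boxset k X') ∧
        δ ^ n2 ≤ 𝔼 j ∈ range (N / X), 𝔼 a ∈ boxset k X', 𝔼 b ∈ boxset k X',
          (if |θ a b j - psiSum θ (a' j) a b j| ≤ δ⁻¹ ^ n1 / X then
            ‖𝔼 t ∈ range X, cube u a b (r + ((j * X + t : ℕ) : ZMod N)) * e (-(θ a b j * t))‖
          else 0)

/-- the statement of `dl_B` for a fixed `k` -/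
def H72B (k : ℕ) : Prop := ∀ n n1 : ℕ, ∃ n3 : ℕ,
    ∀ (N : ℕ) [NeZero N] (u : ZMod N → ℂ) (δ : ℝ) (X X' : ℕ), (∀ x, ‖u x‖ ≤ 1) →
      0 < δ → δ ≤ 1 / 2 → 1 ≤ X → (X : ℝ) ≤ δ ^ n3 * N → 1 ≤ X' → (X' : ℝ) ≤ δ ^ n3 * X →
      ∀ (r : ZMod N) (θ : (Fin k → ℕ) → (Fin k → ℕ) → ℕ → ℝ) (a' : ℕ → Fin k → ℕ),
        (∀ j, a' j ∈ boxset k X') →
        δ ^ n ≤ 𝔼 j ∈ range (N / X), 𝔼 a ∈ boxset k X', 𝔼 b ∈ boxset k X',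
          (if |θ a b j - psiSum θ (a' j) a b j| ≤ δ⁻¹ ^ n1 / X then
            ‖𝔼 t ∈ range X, cube u a b (r + ((j * X + t : ℕ) : ZMod N)) * e (-(θ a b j * t))‖
          else 0) →
        δ ^ n3 ≤ Box (k + 1) X' u

theorem h72_low_of (k : ℕ) (hA : H72A k) (hB : H72B k) : H72Low k := by
  intro Γ n
  obtain ⟨n2, h2⟩ := hA n
  obtain ⟨n3, h3⟩ := h2 (Γ n2)
  obtain ⟨n5, h5⟩ := hB n2 (Γ n2)
  refine ⟨n2, max n3 n5, ?_⟩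
  intro N _ ι Ω F κ u δ Y X X' hD hδ0 hδ1 hu hY hYX hXN hbox hX'1 hX' hLP
  have hX0 : (0 : ℝ) ≤ X := Nat.cast_nonneg X
  have hN0 : (0 : ℝ) ≤ N := Nat.cast_nonneg N
  have hX1 : 1 ≤ X := by
    have : (1 : ℝ) ≤ X := le_trans hY hYX
    exact_mod_cast this
  obtain ⟨r, θ, a', ha', hlow⟩ := h3 N ι Ω F κ u δ Y X X' hD hδ0 hδ1 hu hY hYX
    (le_trans hXN (mul_le_mul_of_nonneg_right (h72_pow_anti hδ0 hδ1 (le_max_left _ _)) hN0)) hbox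
    hX'1 (le_trans hX' (mul_le_mul_of_nonneg_right (h72_pow_anti hδ0 hδ1 (le_max_left _ _)) hX0))
    hLP
  exact le_trans (h72_pow_anti hδ0 hδ1 (le_max_right _ _))
    (h5 N u δ X X' hu.bdd hδ0 hδ1 hX1
      (le_trans hXN (mul_le_mul_of_nonneg_right (h72_pow_anti hδ0 hδ1 (le_max_right _ _)) hN0))
      hX'1 (le_trans hX' (mul_le_mul_of_nonneg_right (h72_pow_anti hδ0 hδ1 (le_max_right _ _)) hX0))
      r θ a' ha' hlow)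

end

end Pool.Agent.Helper57.NX
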